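import Mathlib

/-!
# The numbers of the final chain (row LFN)
-/

set_option autoImplicit false

namespace Pool.Agent.H85.SLN

/-- the numbers for large `N` -/
theorem lf_num (N : ℝ) (hN : 1000000000 ≤ N) :
    230400 * N ^ 3 * Real.exp (-(N / 2)) ≤ 1 / 2 ∧
    983040 * N ^ 6 * Real.exp 70 < Real.exp (N / 2) ∧ 240 * N ≤ Real.exp N ∧
    32 * N ≤ Real.exp N ∧ Real.exp 71 ≤ Real.exp N := by
  have hN0 : 0 < N := by linarith
  refine ⟨?_, ?_, ?_, ?_, ?_⟩
  · have h := Real.pow_div_factorial_le_exp (N / 2) (by positivity) 4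
    have h4 : ((Nat.factorial 4 : ℕ) : ℝ) = 24 := by norm_num [Nat.factorial]
    rw [h4] at h
    rw [Real.exp_neg, mul_inv_le_iff₀ (Real.exp_pos _)]
    have h5 : 230400 * N ^ 3 ≤ 1 / 2 * ((N / 2) ^ 4 / 24) := by
      have e : 1 / 2 * ((N / 2) ^ 4 / 24) = N ^ 3 * (N / 768) := by ring
      rw [e]
      have : (230400 : ℝ) ≤ N / 768 := by linarith
      calc 230400 * N ^ 3 = N ^ 3 * 230400 := by ring
        _ ≤ N ^ 3 * (N / 768) := mul_le_mul_of_nonneg_left this (by positivity)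
    linarith
  · have h := Real.pow_div_factorial_le_exp (N / 4) (by positivity) 7
    have h7 : ((Nat.factorial 7 : ℕ) : ℝ) = 5040 := by norm_num [Nat.factorial]
    rw [h7] at h
    have h6 : N ^ 6 < Real.exp (N / 4) := by
      refine lt_of_lt_of_le ?_ h
      have e : (N / 4) ^ 7 / 5040 = N ^ 6 * (N / 82575360) := by ring
      rw [e]
      have : (1 : ℝ) < N / 82575360 := by
        rw [lt_div_iff₀ (by norm_num)]
        linarith
      calc N ^ 6 = N ^ 6 * 1 := (mul_one _).symm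
        _ < N ^ 6 * (N / 82575360) := mul_lt_mul_of_pos_left this (by positivity)
    have h8 : 983040 * Real.exp 70 ≤ Real.exp (N / 4) := by
      have e1 : (983040 : ℝ) ≤ Real.exp 983040 := by
        have := Real.add_one_le_exp (983040 : ℝ)
        linarith
      calc 983040 * Real.exp 70 ≤ Real.exp 983040 * Real.exp 70 :=
            mul_le_mul_of_nonneg_right e1 (Real.exp_pos _).le
        _ = Real.exp (983040 + 70) := (Real.exp_add _ _).symm
        _ ≤ Real.exp (N / 4) := Real.exp_le_exp.2 (by linarith)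
    calc 983040 * N ^ 6 * Real.exp 70 = N ^ 6 * (983040 * Real.exp 70) := by ring
      _ < Real.exp (N / 4) * (983040 * Real.exp 70) :=
          mul_lt_mul_of_pos_right h6 (by positivity)
      _ ≤ Real.exp (N / 4) * Real.exp (N / 4) :=
          mul_le_mul_of_nonneg_left h8 (Real.exp_pos _).le
      _ = Real.exp (N / 2) := by
          rw [← Real.exp_add]
          congr 1
          ring
  · have h := Real.pow_div_factorial_le_exp N hN0.le 2
    have h2 : ((Nat.factorial 2 : ℕ) : ℝ) = 2 := by norm_num [Nat.factorial]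
    rw [h2] at h
    nlinarith
  · have h := Real.pow_div_factorial_le_exp N hN0.le 2
    have h2 : ((Nat.factorial 2 : ℕ) : ℝ) = 2 := by norm_num [Nat.factorial]
    rw [h2] at h
    nlinarith
  · exact Real.exp_le_exp.2 (by linarith)

/-- the last condition on the moments -/
theorem lf_big (N G : ℕ) (hN : (1000000000 : ℝ) ≤ N) (hG : (G : ℝ) ≤ Real.exp N) :
    16 * ((N * (G + 1) : ℕ) * (G : ℝ) ^ N *
      ((240 * (N : ℝ)) ^ 4 * Real.exp (240 * N)) ^ (N + 1)) ≤ 2 ^ (N ^ 3) := by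
  obtain ⟨-, -, h3, h4, -⟩ := lf_num N hN
  have hN0 : (0 : ℝ) < N := by linarith
  have e1 : (1 : ℝ) ≤ Real.exp N := Real.one_le_exp hN0.le
  have a1 : ((N * (G + 1) : ℕ) : ℝ) ≤ N * (2 * Real.exp N) := by
    push_cast
    apply mul_le_mul_of_nonneg_left _ hN0.le
    linarith
  have a2 : (G : ℝ) ^ N ≤ Real.exp ((N : ℝ) * N) := by
    calc (G : ℝ) ^ N ≤ Real.exp N ^ N := pow_le_pow_left₀ (Nat.cast_nonneg _) hG N
      _ = Real.exp ((N : ℝ) * N) := by rw [← Real.exp_nat_mul]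
  have a3 : (240 * (N : ℝ)) ^ 4 * Real.exp (240 * N) ≤ Real.exp (244 * N) := by
    calc (240 * (N : ℝ)) ^ 4 * Real.exp (240 * N) ≤ Real.exp N ^ 4 * Real.exp (240 * N) := by
          gcongr
      _ = Real.exp (244 * N) := by
          rw [← Real.exp_nat_mul, ← Real.exp_add]
          congr 1
          push_cast
          ring
  have a4 : ((240 * (N : ℝ)) ^ 4 * Real.exp (240 * N)) ^ (N + 1) ≤
      Real.exp (((N : ℝ) + 1) * (244 * N)) := by
    calc ((240 * (N : ℝ)) ^ 4 * Real.exp (240 * N)) ^ (N + 1) ≤ Real.exp (244 * N) ^ (N + 1) :=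
          pow_le_pow_left₀ (by positivity) a3 _
      _ = Real.exp (((N : ℝ) + 1) * (244 * N)) := by
          rw [← Real.exp_nat_mul]
          push_cast
          rfl
  calc 16 * ((N * (G + 1) : ℕ) * (G : ℝ) ^ N *
      ((240 * (N : ℝ)) ^ 4 * Real.exp (240 * N)) ^ (N + 1))
      ≤ 16 * (N * (2 * Real.exp N) * Real.exp ((N : ℝ) * N) *
        Real.exp (((N : ℝ) + 1) * (244 * N))) := by gcongr
    _ = (32 * N) * (Real.exp N * Real.exp ((N : ℝ) * N) *
        Real.exp (((N : ℝ) + 1) * (244 * N))) := by ring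
    _ ≤ Real.exp N * (Real.exp N * Real.exp ((N : ℝ) * N) *
        Real.exp (((N : ℝ) + 1) * (244 * N))) :=
        mul_le_mul_of_nonneg_right h4 (by positivity)
    _ = Real.exp ((N : ℝ) + (N + (N : ℝ) * N + ((N : ℝ) + 1) * (244 * N))) := by
        rw [Real.exp_add, Real.exp_add, Real.exp_add]
    _ ≤ Real.exp ((N : ℝ) ^ 3 * (1 / 2)) := by
        apply Real.exp_le_exp.2
        have b1 : (N : ℝ) + (N + (N : ℝ) * N + ((N : ℝ) + 1) * (244 * N)) =
            N * (245 * N + 246) := by ring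
        have b2 : (N : ℝ) ^ 3 * (1 / 2) = N * (N * (N / 2)) := by ring
        rw [b1, b2]
        apply mul_le_mul_of_nonneg_left _ hN0.le
        have : (491 : ℝ) ≤ N / 2 := by linarith
        have := mul_le_mul_of_nonneg_left this hN0.le
        linarith
    _ ≤ Real.exp ((N : ℝ) ^ 3 * Real.log 2) := by
        apply Real.exp_le_exp.2
        apply mul_le_mul_of_nonneg_left _ (by positivity)
        have := Real.log_two_gt_d9
        linarith
    _ = 2 ^ (N ^ 3) := by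
        rw [mul_comm, Real.exp_mul, Real.exp_log (by norm_num)]
        have : ((N : ℝ) ^ 3) = ((N ^ 3 : ℕ) : ℝ) := by push_cast; rfl
        rw [this, Real.rpow_natCast]

/-- the link -/
theorem lf_kap (δ y κ g : ℝ) (hδy : δ = 1 / y ^ 4) (hyb : 1000000000 ≤ y) (hκ : κ = δ / 64)
    (hg2 : g ≤ 1 / 2 + δ / 2) : 1 / (16 * y ^ 2) ≤ κ ^ g := by
  have hy0 : 0 < y := by linarith
  have hδ0 : 0 < δ := by
    rw [hδy]
    positivity
  have hκ0 : 0 < κ := by
    rw [hκ]
    positivity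
  have hδ1 : δ ≤ 1 := by
    rw [hδy, div_le_one (by positivity)]
    exact one_le_pow₀ (by linarith)
  have hκ1 : κ ≤ 1 := by
    rw [hκ]
    linarith
  have h1 : κ ^ (1 / 2 + δ / 2 : ℝ) ≤ κ ^ g := Real.rpow_le_rpow_of_exponent_ge hκ0 hκ1 hg2
  have h2 : κ ^ (1 / 2 + δ / 2 : ℝ) = κ ^ (1 / 2 : ℝ) * κ ^ (δ / 2 : ℝ) :=
    Real.rpow_add hκ0 _ _
  have h3 : κ ^ (1 / 2 : ℝ) = 1 / (8 * y ^ 2) := by
    have e : κ = (1 / (8 * y ^ 2)) ^ 2 := by
      rw [hκ, hδy]
      field_simp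
      norm_num
    rw [← Real.sqrt_eq_rpow, e, Real.sqrt_sq (by positivity)]
  have h4 : 1 / 2 ≤ κ ^ (δ / 2 : ℝ) := by
    rw [Real.rpow_def_of_pos hκ0]
    have h5 : Real.log κ * (δ / 2) + 1 ≤ Real.exp (Real.log κ * (δ / 2)) :=
      Real.add_one_le_exp _
    have h6 : -(67 * y) ≤ Real.log κ := by
      have e1 : κ = (64 * y ^ 4)⁻¹ := by
        rw [hκ, hδy]
        field_simp
      rw [e1, Real.log_inv, Real.log_mul (by norm_num) (by positivity), Real.log_pow]
      have l1 := Real.log_le_sub_one_of_pos (show (0 : ℝ) < 64 by norm_num)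
      have l2 := Real.log_le_sub_one_of_pos hy0
      push_cast
      linarith
    have h7 : 67 * y * δ ≤ 1 := by
      rw [hδy]
      have e : 67 * y * (1 / y ^ 4) = 67 / y ^ 3 := by
        field_simp
      rw [e, div_le_one (by positivity)]
      have : (1 : ℝ) ≤ y ^ 2 := one_le_pow₀ (by linarith)
      calc (67 : ℝ) = 1 * 67 := by ring
        _ ≤ y ^ 2 * y := mul_le_mul this (by linarith) (by norm_num) (by positivity)
        _ = y ^ 3 := by ring
    have h8 : -(67 * y) * (δ / 2) ≤ Real.log κ * (δ / 2) :=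
      mul_le_mul_of_nonneg_right h6 (by positivity)
    linarith
  calc 1 / (16 * y ^ 2) = 1 / (8 * y ^ 2) * (1 / 2) := by
        field_simp
        norm_num
    _ ≤ 1 / (8 * y ^ 2) * κ ^ (δ / 2 : ℝ) := mul_le_mul_of_nonneg_left h4 (by positivity)
    _ = κ ^ (1 / 2 + δ / 2 : ℝ) := by rw [h2, h3]
    _ ≤ κ ^ g := h1

/-- the link times the density -/
theorem lf_om (K0 y N kg lg t1 : ℝ) (hK0 : K0 = 200 * Real.exp 40) (hNlo : K0 * y ≤ N)
    (hy0 : 0 < y) (hNb : 1000000000 ≤ N) (hκg : 1 / (16 * y ^ 2) ≤ kg) (hlogG : N - 1 ≤ lg)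
    (ht1 : t1 = Real.exp (-70) / 240 * N) : 2 ≤ kg * (lg - 2) * t1 := by
  have hN0 : 0 < N := by linarith
  have hK00 : 0 < K0 := by
    rw [hK0]
    positivity
  have ht10 : 0 < t1 := by
    rw [ht1]
    positivity
  have hk0 : 0 < kg := lt_of_lt_of_le (by positivity) hκg
  have h1 : N / 2 ≤ lg - 2 := by linarith
  have h2 : 1 / (16 * y ^ 2) * (N / 2) ≤ kg * (lg - 2) :=
    mul_le_mul hκg h1 (by positivity) hk0.le
  have h3 : 1 / (16 * y ^ 2) * (N / 2) * t1 ≤ kg * (lg - 2) * t1 :=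
    mul_le_mul_of_nonneg_right h2 ht10.le
  refine le_trans ?_ h3
  have e : 1 / (16 * y ^ 2) * (N / 2) * t1 = Real.exp (-70) * N ^ 2 / (7680 * y ^ 2) := by
    rw [ht1]
    field_simp
    norm_num
  rw [e, le_div_iff₀ (by positivity)]
  have h4 : (K0 * y) ^ 2 ≤ N ^ 2 := pow_le_pow_left₀ (by positivity) hNlo 2
  have h5 : (K0 * y) ^ 2 = 40000 * Real.exp 80 * y ^ 2 := by
    rw [hK0, mul_pow, mul_pow, ← Real.exp_nat_mul]
    norm_num
  rw [h5] at h4
  have h6 : Real.exp (-70) * (40000 * Real.exp 80 * y ^ 2) ≤ Real.exp (-70) * N ^ 2 :=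
    mul_le_mul_of_nonneg_left h4 (Real.exp_pos _).le
  have h7 : Real.exp (-70) * Real.exp 80 = Real.exp 10 := by
    rw [← Real.exp_add]
    norm_num
  have h8 : 1 ≤ Real.exp 10 := Real.one_le_exp (by norm_num)
  have h9 : Real.exp (-70) * (40000 * Real.exp 80 * y ^ 2) =
      40000 * Real.exp 10 * y ^ 2 := by
    rw [← h7]
    ring
  rw [h9] at h6
  refine le_trans ?_ h6
  have g1 : 40000 * 1 * y ^ 2 ≤ 40000 * Real.exp 10 * y ^ 2 := by gcongr
  have g2 : 0 ≤ y ^ 2 := by positivity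
  linarith

/-- the last inequality -/
theorem lf_end (δ y κ A t1 : ℝ) (N : ℕ) (hδy : δ = 1 / y ^ 4) (hy0 : 0 < y) (hκ : κ = δ / 64)
    (hA0 : 0 < A) (hyN' : y ≤ N) (hNb : (1000000000 : ℝ) ≤ N)
    (ht1 : t1 = Real.exp (-70) / 240 * N) :
    4 * (2 * A * (240 * N)) / κ * (4 * (N : ℝ) ^ 3) < A * (240 * N) * t1 * 2 ^ N / 2 := by
  have hN0 : (0 : ℝ) < N := by linarith
  have hδ0 : 0 < δ := by
    rw [hδy]
    positivity
  have ht10 : 0 < t1 := by
    rw [ht1]
    positivity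
  obtain ⟨-, n2, -⟩ := lf_num N hNb
  have e1 : 4 * (2 * A * (240 * N)) / κ * (4 * (N : ℝ) ^ 3) =
      (A * (240 * N)) * (2048 * N ^ 3 * (1 / δ)) := by
    rw [hκ]
    field_simp
    norm_num
  have e2 : A * (240 * N) * t1 * 2 ^ N / 2 = (A * (240 * N)) * (t1 * 2 ^ N / 2) := by ring
  rw [e1, e2]
  apply mul_lt_mul_of_pos_left _ (by positivity)
  have d1 : 1 / δ ≤ (N : ℝ) ^ 4 := by
    rw [hδy, one_div_one_div]
    exact pow_le_pow_left₀ hy0.le hyN' 4
  have d2 : Real.exp (N / 2) ≤ 2 ^ N := by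
    have : (2 : ℝ) ^ N = Real.exp (N * Real.log 2) := by
      rw [mul_comm, Real.exp_mul, Real.exp_log (by norm_num), Real.rpow_natCast]
    rw [this]
    apply Real.exp_le_exp.2
    have := Real.log_two_gt_d9
    have : (N : ℝ) * (1 / 2) ≤ N * Real.log 2 :=
      mul_le_mul_of_nonneg_left (by linarith) hN0.le
    linarith
  have d3 : 983040 * (N : ℝ) ^ 6 * Real.exp 70 < 2 ^ N := lt_of_lt_of_le n2 d2
  have d4 : 2048 * (N : ℝ) ^ 3 * (1 / δ) ≤ 2048 * N ^ 7 := by
    calc 2048 * (N : ℝ) ^ 3 * (1 / δ) ≤ 2048 * N ^ 3 * N ^ 4 :=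
          mul_le_mul_of_nonneg_left d1 (by positivity)
      _ = 2048 * N ^ 7 := by ring
  refine lt_of_le_of_lt d4 ?_
  have d5 : t1 / 2 * (983040 * (N : ℝ) ^ 6 * Real.exp 70) < t1 / 2 * 2 ^ N :=
    mul_lt_mul_of_pos_left d3 (by positivity)
  have d6 : t1 / 2 * (983040 * (N : ℝ) ^ 6 * Real.exp 70) = 2048 * N ^ 7 := by
    have : Real.exp (-70) * Real.exp 70 = 1 := by
      rw [← Real.exp_add]
      norm_num
    rw [ht1]
    have e : Real.exp (-70) / 240 * N / 2 * (983040 * (N : ℝ) ^ 6 * Real.exp 70) =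
        2048 * N ^ 7 * (Real.exp (-70) * Real.exp 70) := by ring
    rw [e, this, mul_one]
  linarith

end Pool.Agent.H85.SLN
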