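import Pool.Agent.H98.SLN.Targets
import Pool.Agent.H85.SLN.LFNa

/-!
# The final chain (row LFN)
-/

set_option autoImplicit false

open MeasureTheory ProbabilityTheory Filter Topology
open scoped ENNReal
open Pool.Agent.H95 Pool.Agent.H95.Cop
open Pool.Agent.H55.CG (pz VV Mo)
open Pool.Agent.H98.CE (pc WB HK OBJ)
open Pool.Agent.H98.SLN

namespace Pool.Agent.H85.SLN

theorem pf_LFN (hOB1 : T_OB1) (hHKR : T_HKR) (hCHF : Pool.Agent.H98.CE.T_CHF)
    (hAS2 : Pool.Agent.H98.CE.T_AS2) : T_LFN := by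
  obtain ⟨N1, -, hOB⟩ := hOB1
  set K0 : ℝ := 200 * Real.exp 40 with hK0
  have hK01 : 1 ≤ K0 := by
    have := Real.add_one_le_exp (40 : ℝ)
    rw [hK0]
    linarith
  set Y0 : ℝ := 122880 * K0 + N1 + 1000000000 with hY0
  have hY01 : 1 ≤ Y0 := by
    have : (0 : ℝ) ≤ N1 := Nat.cast_nonneg _
    rw [hY0]
    linarith
  refine ⟨K0, (1 / Y0) ^ 4, hK01, by positivity, ?_⟩
  intro K α c δ ℓ q ν hδ hR hM
  have hδ0 := hR.δ0
  have hδ1 := hR.δ1
  have hα0 := hR.α0
  have hα1 := hR.α1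
  -- the scale
  set y : ℝ := δ ^ (-(1 / 4 : ℝ)) with hy
  have hy0 : 0 < y := Real.rpow_pos_of_pos hδ0 _
  have hy4 : y ^ 4 = 1 / δ := by
    rw [hy, ← Real.rpow_natCast, ← Real.rpow_mul hδ0.le]
    have : (-(1 / 4 : ℝ)) * ((4 : ℕ) : ℝ) = -1 := by norm_num
    rw [this, Real.rpow_neg_one, one_div]
  have hyY : Y0 < y := by
    have h1 : Y0 ^ 4 < y ^ 4 := by
      rw [hy4, lt_div_iff₀ hδ0]
      have h2 : Y0 ^ 4 * δ < Y0 ^ 4 * (1 / Y0) ^ 4 := mul_lt_mul_of_pos_left hδ (by positivity)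
      have h3 : Y0 ^ 4 * (1 / Y0) ^ 4 = 1 := by
        rw [← mul_pow, mul_one_div_cancel (by linarith), one_pow]
      rw [h3] at h2
      exact h2
    exact lt_of_pow_lt_pow_left₀ 4 hy0.le h1
  have hN1n : (0 : ℝ) ≤ N1 := Nat.cast_nonneg _
  have hyb : (1000000000 : ℝ) ≤ y := by
    rw [hY0] at hyY
    linarith
  have hyK : 122880 * K0 ≤ y := by
    rw [hY0] at hyY
    linarith
  have hyN : (N1 : ℝ) ≤ y := by
    rw [hY0] at hyY
    linarith
  have hδy : δ = 1 / y ^ 4 := by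
    rw [hy4]
    field_simp
  have hsδ : Real.sqrt δ = 1 / y ^ 2 := by
    have e : δ = (1 / y ^ 2) ^ 2 := by
      rw [hδy, one_div_pow, ← pow_mul]
    rw [e, Real.sqrt_sq (by positivity)]
  set N : ℕ := NN K0 δ with hN
  have hNlo : K0 * y ≤ N := by
    rw [hN]
    exact Nat.le_ceil _
  have hNhi : (N : ℝ) ≤ 2 * K0 * y := by
    have h1 : (N : ℝ) < K0 * y + 1 := by
      rw [hN]
      exact Nat.ceil_lt_add_one (by positivity)
    have h2 : 1 ≤ K0 * y := by
      calc (1 : ℝ) = 1 * 1 := by ring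
        _ ≤ K0 * y := mul_le_mul hK01 (by linarith) zero_le_one (by linarith)
    linarith
  have hyN' : y ≤ N := by
    calc y = 1 * y := (one_mul y).symm
      _ ≤ K0 * y := mul_le_mul_of_nonneg_right hK01 hy0.le
      _ ≤ N := hNlo
  have hNb : (1000000000 : ℝ) ≤ N := hyb.trans hyN'
  have hN1N : N1 ≤ N := by exact_mod_cast hyN.trans hyN'
  have hN0 : (0 : ℝ) < N := by linarith
  obtain ⟨n1, n2, n3, n4, n5⟩ := lf_num N hNb
  have hsN : 2 ^ 9 * Real.sqrt δ * (120 * N) ≤ 1 := by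
    rw [hsδ]
    have e : 2 ^ 9 * (1 / y ^ 2) * (120 * (N : ℝ)) = 61440 * N / y ^ 2 := by ring
    rw [e, div_le_one (by positivity)]
    calc 61440 * (N : ℝ) ≤ 61440 * (2 * K0 * y) := mul_le_mul_of_nonneg_left hNhi (by norm_num)
      _ = (122880 * K0) * y := by ring
      _ ≤ y * y := mul_le_mul_of_nonneg_right hyK hy0.le
      _ = y ^ 2 := by ring
  have hO := hOB K α c δ ℓ q N ν hR hN1N hM hsN
  obtain ⟨hHK, -, -⟩ := hHKR K α c δ ℓ q hR
  have hℓ1 : 1 ≤ ℓ := by
    rcases Nat.eq_zero_or_pos ℓ with h | h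
    · exfalso
      have h1 := hR.q3
      have h2 : (1 : ℝ) ≤ q := by exact_mod_cast hR.q1
      rw [h, Nat.cast_zero, mul_zero] at h1
      linarith
    · exact h
  have hα : 0 < α := by linarith
  set κ : ℝ := δ / 64 with hκ
  have hκ0 : 0 < κ := by positivity
  have hκ1 : κ ≤ 1 := by
    rw [hκ]
    linarith
  -- the links
  set g : ℝ := 1 / (1 + α) with hg
  have hg1 : 1 / 2 ≤ g := by
    rw [hg]
    exact one_div_le_one_div_of_le (by linarith) (by linarith)
  have hg2 : g ≤ 1 / 2 + δ / 2 := by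
    rw [hg, div_le_iff₀ (by linarith)]
    have g1 : (1 / 2 + δ / 2) * (2 - δ) ≤ (1 / 2 + δ / 2) * (1 + α) :=
      mul_le_mul_of_nonneg_left (by linarith) (by linarith)
    have g2 : (1 / 2 + δ / 2) * (2 - δ) = 1 + δ / 2 * (1 - δ) := by ring
    have g3 : 0 ≤ δ / 2 * (1 - δ) := mul_nonneg (by linarith) (by linarith)
    linarith
  have hκg : 1 / (16 * y ^ 2) ≤ κ ^ g := lf_kap δ y κ g hδy hyb hκ hg2
  -- the number of jumps
  set G : ℕ := ⌊Real.exp N⌋₊ with hGdef
  have hGhi : (G : ℝ) ≤ Real.exp N := Nat.floor_le (Real.exp_pos _).le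
  have hGlo : Real.exp N < G + 1 := Nat.lt_floor_add_one _
  have hexp2 : Real.exp (N - 1) ≤ G := by
    have h1 : Real.exp N = Real.exp (N - 1) * Real.exp 1 := by
      rw [← Real.exp_add]
      congr 1
      ring
    have h2 : 2 ≤ Real.exp 1 := by
      have := Real.add_one_le_exp (1 : ℝ)
      linarith
    have h3 : 1 ≤ Real.exp ((N : ℝ) - 1) := Real.one_le_exp (by linarith)
    have h4 : Real.exp ((N : ℝ) - 1) * 2 ≤ Real.exp (N - 1) * Real.exp 1 :=
      mul_le_mul_of_nonneg_left h2 (Real.exp_pos _).le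
    linarith
  have hG1 : 1 ≤ G := by
    have h3 : 1 ≤ Real.exp ((N : ℝ) - 1) := Real.one_le_exp (by linarith)
    exact_mod_cast h3.trans hexp2
  have hlogG : (N : ℝ) - 1 ≤ Real.log G := by
    rw [Real.le_log_iff_exp_le (by exact_mod_cast hG1)]
    exact hexp2
  set A : ℕ := N * (G + 1) with hA
  set t1 : ℝ := Real.exp (-70) / 240 * N with ht1
  have ht10 : 0 < t1 := by positivity
  set ω : ℝ := κ ^ g * (Real.log G - 2) with hω
  have hω0 : 0 ≤ ω := by
    have : 0 ≤ Real.log G - 2 := by linarith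
    positivity
  have hωt : 2 ≤ ω * t1 := lf_om K0 y N (κ ^ g) (Real.log G) t1 hK0 hNlo hy0 hNb hκg hlogG ht1
  have hAr : (A : ℝ) = N * (G + 1) := by
    rw [hA]
    push_cast
    ring
  have hA0 : (0 : ℝ) < A := by
    rw [hAr]
    positivity
  have hn : ((240 * N : ℕ) : ℝ) = 240 * N := by push_cast; ring
  set E0 : ℝ := A * (240 * N : ℕ) * t1 * (ω * t1) ^ N / 2 with hE0
  have hpow : (2 : ℝ) ^ N ≤ (ω * t1) ^ N := pow_le_pow_left₀ (by norm_num) hωt N
  have hE0lo : A * (240 * N) * t1 * 2 ^ N / 2 ≤ E0 := by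
    rw [hE0, hn]
    have : 0 ≤ (A : ℝ) * (240 * N) * t1 := by positivity
    have := mul_le_mul_of_nonneg_left hpow this
    linarith
  have h2N : (1 : ℝ) ≤ 2 ^ N := one_le_pow₀ (by norm_num)
  have h2N2 : (2 : ℝ) ≤ 2 ^ N := by
    calc (2 : ℝ) = 2 ^ 1 := by norm_num
      _ ≤ 2 ^ N := pow_le_pow_right₀ (by norm_num) (by exact_mod_cast (by linarith : (1 : ℝ) ≤ N))
  have hE01 : 1 ≤ E0 := by
    refine le_trans ?_ hE0lo
    have h1 : Real.exp 71 * Real.exp (-70) = Real.exp 1 := by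
      rw [← Real.exp_add]
      norm_num
    have h2 : 1 ≤ Real.exp 1 := Real.one_le_exp (by norm_num)
    have h3 : Real.exp 71 ≤ A := by
      rw [hAr]
      calc Real.exp 71 = 1 * Real.exp 71 := (one_mul _).symm
        _ ≤ N * (G + 1) := mul_le_mul (by linarith) (n5.trans hGlo.le) (Real.exp_pos _).le hN0.le
    have h4 : 1 ≤ A * (240 * N) * t1 := by
      have e : A * (240 * N) * t1 = (A * Real.exp (-70)) * (N * N) := by
        rw [ht1]
        ring
      rw [e]
      have h5 : 1 ≤ A * Real.exp (-70) := by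
        calc 1 ≤ Real.exp 71 * Real.exp (-70) := by rw [h1]; exact h2
          _ ≤ A * Real.exp (-70) := mul_le_mul_of_nonneg_right h3 (Real.exp_pos _).le
      have h6 : (1 : ℝ) ≤ N * N := by
        calc (1 : ℝ) = 1 * 1 := by ring
          _ ≤ N * N := mul_le_mul (by linarith) (by linarith) zero_le_one hN0.le
      calc (1 : ℝ) = 1 * 1 := by ring
        _ ≤ _ := mul_le_mul h5 h6 zero_le_one (by linarith)
    have h7 : (A * (240 * N) * t1) * 1 ≤ A * (240 * N) * t1 * (2 ^ N / 2) := by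
      apply mul_le_mul_of_nonneg_left _ (by linarith)
      linarith
    have h8 : A * (240 * N) * t1 * (2 ^ N / 2) = A * (240 * N) * t1 * 2 ^ N / 2 := by ring
    linarith
  have hsum : ∑ j ∈ Finset.Icc 1 1, (fun j : ℕ => if j = 1 then Real.exp (-70) / 240 * (N : ℝ)
      else 0) j = t1 := by
    simp [ht1]
  have := hM.prob
  have hCH := hCHF K ν ℓ α (3 * N) κ (240 * N) 1
    (fun j => if j = 1 then Real.exp (-70) / 240 * N else 0) (240 * N)
    ((240 * N) ^ 4 * Real.exp (240 * N)) hℓ1 hα (by positivity) hκ0 hκ1 hHK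
    (by
      have : (1 : ℝ) ≤ N := by linarith
      have : 1 ≤ N := by exact_mod_cast this
      omega)
    (by
      have h1 : (1 : ℝ) ≤ (240 * N) ^ 4 := one_le_pow₀ (by linarith)
      have h2 : 1 ≤ Real.exp (240 * N) := Real.one_le_exp (by positivity)
      calc (1 : ℝ) = 1 * 1 := by ring
        _ ≤ _ := mul_le_mul h1 h2 zero_le_one (by positivity))
    hO
    (by
      intro j
      split_ifs
      · positivity
      · exact le_refl 0)
    1 (2 * A) G A N le_rfl hG1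
    (by
      rw [hA]
      omega)
    (by
      have c1 : ((3 * N : ℝ)) * ((1 : ℕ) : ℝ) / (1 + α) = 3 * N * g := by
        rw [hg]
        push_cast
        ring
      rw [c1]
      have c2 : Real.exp (-(3 * N * g)) ≤ Real.exp (-(3 / 2 * N)) := by
        apply Real.exp_le_exp.2
        have : (3 * (N : ℝ)) * (1 / 2) ≤ 3 * N * g :=
          mul_le_mul_of_nonneg_left hg1 (by positivity)
        linarith
      have c3 : ((2 * A : ℕ) : ℝ) ≤ 4 * N * Real.exp N := by
        push_cast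
        rw [hAr]
        have : (1 : ℝ) ≤ Real.exp N := Real.one_le_exp hN0.le
        have : (G : ℝ) + 1 ≤ 2 * Real.exp N := by linarith
        have := mul_le_mul_of_nonneg_left this hN0.le
        linarith
      rw [hn]
      calc ((2 * A : ℕ) : ℝ) * (240 * N * (240 * N) * Real.exp (-(3 * N * g)))
          ≤ (4 * N * Real.exp N) * (240 * N * (240 * N) * Real.exp (-(3 / 2 * N))) := by
            gcongr
        _ = 230400 * N ^ 3 * (Real.exp N * Real.exp (-(3 / 2 * N))) := by ring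
        _ = 230400 * N ^ 3 * Real.exp (-(N / 2)) := by
            rw [← Real.exp_add]
            congr 2
            ring
        _ ≤ 1 / 2 := n1)
    ω E0 (N ^ 3) hω0
    (by
      rw [hω]
      exact mul_le_mul_of_nonneg_left ((hAS2 α hα).2.2 G hG1).1 (by positivity))
    (by rw [hsum])
    (by linarith)
    (Nat.one_le_pow _ _ (by
      have : (0 : ℝ) < N := hN0
      exact_mod_cast this))
    (by
      refine (lf_big N G hNb hGhi).trans ?_
      have h1 : (1 : ℝ) ≤ E0 ^ 2 := one_le_pow₀ hE01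
      have h2 : (0 : ℝ) ≤ 2 ^ (N ^ 3) := by positivity
      calc (2 : ℝ) ^ (N ^ 3) = 2 ^ (N ^ 3) * 1 := (mul_one _).symm
        _ ≤ 2 ^ (N ^ 3) * E0 ^ 2 := mul_le_mul_of_nonneg_left h1 h2)
  obtain ⟨s', hs', hE⟩ := hCH
  refine ⟨2 * A * (240 * N), s', ?_, hs', lt_of_lt_of_le ?_ hE⟩
  · have h1 : 0 < N := by exact_mod_cast hN0
    have h2 : 0 < A := by exact_mod_cast hA0
    exact Nat.one_le_iff_ne_zero.2 (by positivity)
  · have hpc : ((N ^ 3 : ℕ) : ℝ) = (N : ℝ) ^ 3 := by push_cast; ring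
    have hc : ((2 * A * (240 * N) : ℕ) : ℝ) = 2 * A * (240 * N) := by push_cast; ring
    rw [hpc, hc, lt_div_iff₀ (by positivity)]
    exact lt_of_lt_of_le (lf_end δ y κ A t1 N hδy hy0 hκ hA0 hyN' hNb ht1) hE0lo

end Pool.Agent.H85.SLN
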